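import Pool.Agent.Helper29.H2.St1

/-!
# H2 module MY: more than `ρ` primes among the shifts
-/

set_option autoImplicit false

noncomputable section

namespace Pool.Agent.Helper29.H2

open Finset MeasureTheory
open Pool.Agent.Helper90.MT (lam mat wt szA prt szU VV DD piDD Ok EqD Avd)
open Pool.Agent.Helper60.GP (IsB JJ)
open Pool.Agent.Helper15.AB (Th)
open Pool.Agent.Helper27.BG

/-- trivial bound for the linear form -/
private theorem my_LF {α ι : Type} [Fintype α] [DecidableEq α] [Fintype ι] [DecidableEq ι]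
    (pr : α → ℕ) (sh : ι → ℕ) (Y : (α → Option ι) → ℝ) (n : ℕ) :
    |LF pr sh Y n| ≤ ∑ b, |lam pr Y b| := by
  classical
  unfold LF
  refine (abs_sum_le_sum_abs _ _).trans (sum_le_sum fun b _ => ?_)
  split_ifs
  · exact le_refl _
  · simp

/-- powers of the logarithm are small -/
private theorem my_log (k : ℕ) : ∃ A : ℝ, 0 < A ∧ ∀ Z : ℝ, 1 ≤ Z →
    (Z * (1 + Real.log Z) ^ (2 * k)) ^ 2 ≤ A * Z ^ (21 / 10 : ℝ) := by
  have hk0 : (0 : ℝ) ≤ k := Nat.cast_nonneg k
  have hs : (0 : ℝ) < 1 / (40 * (k + 1)) := by positivity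
  set s : ℝ := 1 / (40 * (k + 1)) with hsd
  refine ⟨(1 + 1 / s) ^ (4 * k), by positivity, fun Z hZ => ?_⟩
  have hZ0 : 0 < Z := by linarith
  have h1 : Real.log Z ≤ Z ^ s / s := Real.log_le_rpow_div hZ0.le hs
  have h2 : 1 ≤ Z ^ s := Real.one_le_rpow hZ hs.le
  have h3 : 1 + Real.log Z ≤ (1 + 1 / s) * Z ^ s := by
    have : (1 + 1 / s) * Z ^ s = Z ^ s + Z ^ s / s := by ring
    rw [this]
    linarith
  have h4 : 0 ≤ 1 + Real.log Z := by
    have := Real.log_nonneg hZ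
    linarith
  have h5 : (1 + Real.log Z) ^ (4 * k) ≤ ((1 + 1 / s) * Z ^ s) ^ (4 * k) :=
    pow_le_pow_left₀ h4 h3 _
  have h8 : (Z ^ s) ^ (4 * k) ≤ Z ^ (1 / 10 : ℝ) := by
    rw [← Real.rpow_natCast, ← Real.rpow_mul hZ0.le]
    refine Real.rpow_le_rpow_of_exponent_le hZ ?_
    rw [hsd]
    push_cast
    rw [div_mul_eq_mul_div, div_le_div_iff₀ (by positivity) (by norm_num)]
    nlinarith
  have h9 : Z ^ (21 / 10 : ℝ) = Z ^ 2 * Z ^ (1 / 10 : ℝ) := by
    rw [← Real.rpow_natCast Z 2, ← Real.rpow_add hZ0]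
    norm_num
  have hc : 0 ≤ (1 + 1 / s) ^ (4 * k) := by positivity
  calc (Z * (1 + Real.log Z) ^ (2 * k)) ^ 2 = Z ^ 2 * (1 + Real.log Z) ^ (4 * k) := by
        rw [mul_pow, ← pow_mul, show 2 * k * 2 = 4 * k by ring]
    _ ≤ Z ^ 2 * ((1 + 1 / s) * Z ^ s) ^ (4 * k) := mul_le_mul_of_nonneg_left h5 (by positivity)
    _ = (1 + 1 / s) ^ (4 * k) * (Z ^ 2 * (Z ^ s) ^ (4 * k)) := by
        rw [mul_pow]
        ring
    _ ≤ (1 + 1 / s) ^ (4 * k) * (Z ^ 2 * Z ^ (1 / 10 : ℝ)) :=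
        mul_le_mul_of_nonneg_left (mul_le_mul_of_nonneg_left h8 (by positivity)) hc
    _ = (1 + 1 / s) ^ (4 * k) * Z ^ (21 / 10 : ℝ) := by rw [h9]

private theorem my_asym (k : ℕ) (K c : ℝ) (hc : 0 < c) : ∃ M₁ : ℕ, ∀ M : ℕ, M₁ ≤ M → 1 ≤ M →
    K * (RR M * (1 + Real.log (RR M)) ^ (2 * k)) ^ 2 ≤ c * M := by
  obtain ⟨A, hA, hAl⟩ := my_log k
  have ht := (tendsto_rpow_atTop (show (0 : ℝ) < 2 / 5 by norm_num)).comp
    tendsto_natCast_atTop_atTop
  obtain ⟨M₁, hM₁⟩ := Filter.eventually_atTop.1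
    (ht.eventually_ge_atTop (|K| * A / c))
  refine ⟨M₁, fun M hM h1 => ?_⟩
  have hM1 : (1 : ℝ) ≤ M := by exact_mod_cast h1
  have hM0 : (0 : ℝ) < M := by linarith
  have hRR : RR M = (M : ℝ) ^ (2499 / 10000 : ℝ) := by rw [RR]
  set Z := RR M with hZ
  have hZ1 : 1 ≤ Z := by
    rw [hRR]
    exact Real.one_le_rpow hM1 (by norm_num)
  have h2 := hAl Z hZ1
  have h3 : Z ^ (21 / 10 : ℝ) ≤ (M : ℝ) ^ (3 / 5 : ℝ) := by
    rw [hRR, ← Real.rpow_mul hM0.le]
    exact Real.rpow_le_rpow_of_exponent_le hM1 (by norm_num)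
  have h4 : |K| * A / c ≤ (M : ℝ) ^ (2 / 5 : ℝ) := hM₁ M hM
  have h5 : (M : ℝ) = (M : ℝ) ^ (2 / 5 : ℝ) * (M : ℝ) ^ (3 / 5 : ℝ) := by
    rw [← Real.rpow_add hM0]
    norm_num
  have h6 : |K| * A ≤ c * (M : ℝ) ^ (2 / 5 : ℝ) := by
    rw [div_le_iff₀ hc] at h4
    linarith
  have h7 : 0 ≤ (M : ℝ) ^ (3 / 5 : ℝ) := by positivity
  have h8 : 0 ≤ (Z * (1 + Real.log Z) ^ (2 * k)) ^ 2 := sq_nonneg _
  calc K * (Z * (1 + Real.log Z) ^ (2 * k)) ^ 2 ≤ |K| * (Z * (1 + Real.log Z) ^ (2 * k)) ^ 2 :=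
        mul_le_mul_of_nonneg_right (le_abs_self K) h8
    _ ≤ |K| * (A * (M : ℝ) ^ (3 / 5 : ℝ)) := by
        refine mul_le_mul_of_nonneg_left (h2.trans ?_) (abs_nonneg K)
        exact mul_le_mul_of_nonneg_left h3 hA.le
    _ = |K| * A * (M : ℝ) ^ (3 / 5 : ℝ) := by ring
    _ ≤ c * (M : ℝ) ^ (2 / 5 : ℝ) * (M : ℝ) ^ (3 / 5 : ℝ) := mul_le_mul_of_nonneg_right h6 h7
    _ = c * M := by rw [mul_assoc, ← h5]

private theorem my_log5 : ∃ M₁ : ℕ, ∀ M : ℕ, M₁ ≤ M →
    Real.log (5 * M) ≤ 10001 / 10000 * Real.log M ∧ 1 ≤ Real.log M ∧ 1 ≤ M := by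
  have ht := Real.tendsto_log_atTop.comp tendsto_natCast_atTop_atTop
  obtain ⟨M₁, hM₁⟩ := Filter.eventually_atTop.1
    (ht.eventually_ge_atTop (10000 * Real.log 5 + 1))
  refine ⟨M₁ + 1, fun M hM => ?_⟩
  have h1 : 10000 * Real.log 5 + 1 ≤ Real.log M := hM₁ M (by omega)
  have h5 : 0 ≤ Real.log 5 := Real.log_nonneg (by norm_num)
  have hM0 : (0 : ℝ) < M := by exact_mod_cast (by omega : 0 < M)
  refine ⟨?_, by linarith, by omega⟩
  rw [Real.log_mul (by norm_num) hM0.ne']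
  linarith

private theorem my_SS (W M : ℕ) (hM : 1 ≤ M) :
    SS W M = (W.totient : ℝ) / W * (2499 / 10000 * Real.log M) := by
  have hM0 : (0 : ℝ) < M := by exact_mod_cast (by omega : 0 < M)
  rw [SS, RR, Real.log_rpow hM0]

private theorem my_SS1 (W : ℕ) (hW : 0 < W) : ∃ M₁ : ℕ, ∀ M : ℕ, M₁ ≤ M → 1 ≤ M →
    1 ≤ SS W M := by
  have hφ : (0 : ℝ) < (W.totient : ℝ) / W := by
    have h1 : (0 : ℝ) < W.totient := by exact_mod_cast Nat.totient_pos.2 hW
    have h2 : (0 : ℝ) < W := by exact_mod_cast hW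
    positivity
  have ht := Real.tendsto_log_atTop.comp tendsto_natCast_atTop_atTop
  obtain ⟨M₁, hM₁⟩ := Filter.eventually_atTop.1
    (ht.eventually_ge_atTop (10000 / 2499 / ((W.totient : ℝ) / W)))
  refine ⟨M₁, fun M hM h1 => ?_⟩
  rw [my_SS W M h1]
  have h2 : 10000 / 2499 / ((W.totient : ℝ) / W) ≤ Real.log M := hM₁ M hM
  rw [div_le_iff₀ hφ] at h2
  nlinarith

/-- the final numerical contradiction -/
private theorem my_contra (T L L5 I ε S R k r : ℝ) (hT : 0 < T) (hL : 1 ≤ L) (hI : 0 < I)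
    (hk : 1 ≤ k) (hr : 1 ≤ r)
    (hε : ε = I / (1000000 * k)) (hL5 : L5 ≤ 10001 / 10000 * L) (hL50 : 0 ≤ L5)
    (hS : (10002 / 10000 : ℝ) * r * I < S) (hR : R ≤ ε * T)
    (h : T * L * (S - k * (2499 / 10000) * ε) ≤ r * L5 * (T * (I + ε) + R)) : False := by
  have h0 : 0 < T * L := mul_pos hT (by linarith)
  have hk0 : 0 < k := by linarith
  have hε0 : 0 < ε := by rw [hε]; positivity
  have hr0 : 0 ≤ r := by linarith
  have h1 : r * L5 * (T * (I + ε) + R) ≤ r * L5 * (T * (I + 2 * ε)) := by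
    refine mul_le_mul_of_nonneg_left ?_ (mul_nonneg hr0 hL50)
    linarith
  have h2 : r * L5 * (T * (I + 2 * ε)) ≤ r * (10001 / 10000 * L) * (T * (I + 2 * ε)) :=
    mul_le_mul_of_nonneg_right (mul_le_mul_of_nonneg_left hL5 hr0) (by positivity)
  have h3 : T * L * (S - k * (2499 / 10000) * ε) ≤
      T * L * (r * (10001 / 10000) * (I + 2 * ε)) := by
    linarith
  have h4 : S - k * (2499 / 10000) * ε ≤ r * (10001 / 10000) * (I + 2 * ε) :=
    le_of_mul_le_mul_left h3 h0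
  have h5 : k * ε = I / 1000000 := by
    rw [hε]
    field_simp
  have h6 : ε ≤ I / 1000000 := by
    rw [← h5]
    nlinarith
  have h7 : r * (10001 / 10000) * (I + 2 * ε) ≤
      r * (10001 / 10000) * (I + 2 * (I / 1000000)) :=
    mul_le_mul_of_nonneg_left (by linarith) (by positivity)
  have h8 : k * (2499 / 10000) * ε = 2499 / 10000 * (I / 1000000) := by
    rw [← h5]
    ring
  have h9 : I ≤ r * I := by nlinarith
  have h10 : 0 < r * I := by positivity
  rw [h8] at h4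
  nlinarith

open Classical in
theorem hMy : StMy := by
  intro hMn hBl hEta hLm hOkw hBump ι _ _ N G B ρ hcard hN hB hG hρ hI hO sh
  classical
  obtain ⟨ω, hω, hJ, -⟩ := hBump 1 one_pos
  have hk1 : (1 : ℝ) ≤ (Fintype.card ι : ℝ) := by exact_mod_cast hcard
  have hk0 : (0 : ℝ) < (Fintype.card ι : ℝ) := by linarith
  have hρ1 : (1 : ℝ) ≤ (ρ : ℝ) := by exact_mod_cast hρ
  set ε : ℝ := IG N G / (1000000 * (Fintype.card ι : ℝ)) with hεd
  have hε : 0 < ε := by positivity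
  obtain ⟨w1, hw1⟩ := hMn ω hω hJ ι N G B sh hN hB hG ε hε
  choose w2 hw2 using fun m : ι => hBl ω hω hJ ι N G B sh m hN hB hG ε hε
  refine ⟨w1 + ∑ m, w2 m + 2 * Fintype.card ι + 1, fun w hw W v hGd n₀ => ?_⟩
  have hwm : ∀ m, w2 m ≤ w := fun m => by
    have := Finset.single_le_sum (f := w2) (fun _ _ => Nat.zero_le _) (mem_univ m)
    omega
  have hW : 0 < W := hGd.dv.1
  obtain ⟨M1, hM1⟩ := hw1 w (by omega) W v hGd
  choose M2 hM2 using fun m => hw2 m w (hwm m) W v hGd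
  obtain ⟨M3, hM3⟩ := hOkw ι N sh w W v hN (by omega) (by omega) hGd
  obtain ⟨C, hC, M4, hM4⟩ := hEta ω hω w
  have hWr : (0 : ℝ) < W := by exact_mod_cast hW
  have hφr : (0 : ℝ) < W.totient := by exact_mod_cast Nat.totient_pos.2 hW
  obtain ⟨M5, hM5⟩ := my_asym (Fintype.card ι) (5 * C * B ^ 2) (ε * JJ ω / W) (by positivity)
  obtain ⟨M6, hM6⟩ := my_log5
  obtain ⟨M7, hM7⟩ := my_SS1 W hW
  by_contra hcon
  push Not at hcon
  set M := M1 + ∑ m, M2 m + M3 + M4 + M5 + M6 + M7 + n₀ + w + 2 with hMd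
  have hM2le : ∀ m, M2 m ≤ M := fun m => by
    have := Finset.single_le_sum (f := M2) (fun _ _ => Nat.zero_le _) (mem_univ m)
    omega
  have hMpos : 1 ≤ M := by omega
  have hMr : (1 : ℝ) ≤ M := by exact_mod_cast hMpos
  have hA := hM1 M (by omega)
  have hL := fun m => hM2 m M (hM2le m)
  obtain ⟨hOk0, -, hRR, hsz⟩ := hM3 M (by omega)
  obtain ⟨he0, he1, hf0, -, hfp, hfe⟩ := hM4 M (by omega)
  have h5 := hM5 M (by omega) hMpos
  obtain ⟨hl5, hl1, -⟩ := hM6 M (by omega)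
  have hS1 := hM7 M (by omega) hMpos
  set F := (range (4 * M + 1)).filter (fun n => n ≡ v [MOD W]) with hF
  set LL : ℕ → ℝ := fun n => LF (pw W M) sh (YG N G W M) n with hLL
  -- pointwise bound
  have hl50 : 0 ≤ Real.log (5 * M) := Real.log_nonneg (by linarith)
  have hpt : ∀ n ∈ F, ∑ m, fM ω M (n + sh m) ≤
      ρ * Real.log (5 * M) * (eta ω M n + C / M) := by
    intro n hn
    have hnv : n ≡ v [MOD W] := (mem_filter.1 hn).2
    have hen := he0 n
    have hX : 0 ≤ Real.log (5 * M) * (eta ω M n + C / M) := by positivity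
    by_cases hz : ∀ m, fM ω M (n + sh m) = 0
    · rw [Finset.sum_eq_zero fun m _ => hz m, mul_assoc]
      positivity
    · push Not at hz
      obtain ⟨m, hm⟩ := hz
      obtain ⟨hp, hr⟩ := hfp _ hm
      have hshw : sh m < w := hGd.lt m
      have hgt : M < n + sh m := (mem_Ioc.1 hr).1
      have hn0 : n₀ ≤ n := by omega
      have hc := hcon n hn0 hnv
      have e1 : ∑ m, fM ω M (n + sh m) =
          ∑ m ∈ univ.filter (fun m : ι => (n + sh m).Prime), fM ω M (n + sh m) := by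
        symm
        refine sum_subset (filter_subset _ _) fun m' _ hm' => ?_
        by_contra hne
        exact hm' (mem_filter.2 ⟨mem_univ _, (hfp _ hne).1⟩)
      rw [e1]
      calc ∑ m ∈ univ.filter (fun m : ι => (n + sh m).Prime), fM ω M (n + sh m) ≤
          ∑ m ∈ univ.filter (fun m : ι => (n + sh m).Prime),
            Real.log (5 * M) * (eta ω M n + C / M) :=
            sum_le_sum fun m' _ => hfe n (sh m') (hGd.lt m').le
        _ = ((univ.filter (fun m : ι => (n + sh m).Prime)).card : ℝ) *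
            (Real.log (5 * M) * (eta ω M n + C / M)) := by rw [sum_const, nsmul_eq_mul]
        _ ≤ (ρ : ℝ) * (Real.log (5 * M) * (eta ω M n + C / M)) := by
            refine mul_le_mul_of_nonneg_right ?_ hX
            exact_mod_cast hc
        _ = ρ * Real.log (5 * M) * (eta ω M n + C / M) := by ring
  -- sum over the n
  have hsum : ∑ m, ∑ n ∈ F, fM ω M (n + sh m) * LL n ^ 2 ≤
      ρ * Real.log (5 * M) * (∑ n ∈ F, eta ω M n * LL n ^ 2 + C / M * ∑ n ∈ F, LL n ^ 2) := by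
    rw [sum_comm]
    have e1 : ρ * Real.log (5 * M) *
        (∑ n ∈ F, eta ω M n * LL n ^ 2 + C / M * ∑ n ∈ F, LL n ^ 2) =
        ∑ n ∈ F, ρ * Real.log (5 * M) * (eta ω M n + C / M) * LL n ^ 2 := by
      rw [mul_sum (s := F) (a := C / (M : ℝ)), ← sum_add_distrib, mul_sum]
      exact sum_congr rfl fun n _ => by ring
    rw [e1]
    refine sum_le_sum fun n hn => ?_
    rw [← sum_mul]
    exact mul_le_mul_of_nonneg_right (hpt n hn) (sq_nonneg _)
  -- the trivial bound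
  have hZ1 : 1 ≤ RR M := hRR.le
  have hGsz : ∀ a : Pw W M → Option ι, YG N G W M a ≠ 0 → (szA (pw W M) a : ℝ) ≤ RR M := by
    intro a ha
    have h1 := (hG.2 _ _ ha).2
    have h2 := hsz a N h1
    have h3 : ((N : ℝ) / N) = 1 := div_self (by exact_mod_cast hN.ne')
    rwa [h3, Real.rpow_one] at h2
  have hlm := (hLm (Pw W M) ι (pw W M) (YG N G W M) B (RR M) hOk0.prime
    hOk0.inj hZ1 (fun a => hG.1 _ _) hGsz).2.2
  have hLn : ∀ n, LL n ^ 2 ≤ B ^ 2 * (RR M *
      (1 + Real.log (RR M)) ^ (2 * Fintype.card ι)) ^ 2 := by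
    intro n
    have h1 : |LL n| ≤ B * RR M *
      (1 + Real.log (RR M)) ^ (2 * Fintype.card ι) := (my_LF _ _ _ _).trans hlm
    have h2 : LL n ^ 2 ≤ (B * RR M *
      (1 + Real.log (RR M)) ^ (2 * Fintype.card ι)) ^ 2 := by
      rw [← sq_abs]
      exact pow_le_pow_left₀ (abs_nonneg _) h1 2
    refine h2.trans (le_of_eq ?_)
    ring
  have hR : C / M * ∑ n ∈ F, LL n ^ 2 ≤
      ε * (JJ ω * M / W * SS W M ^ Fintype.card ι) := by
    set Q := (RR M * (1 + Real.log (RR M)) ^ (2 * Fintype.card ι)) ^ 2 with hQ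
    have hQ0 : 0 ≤ Q := sq_nonneg _
    have h1 : ∑ n ∈ F, LL n ^ 2 ≤ (4 * M + 1) * (B ^ 2 * Q) := by
      refine (sum_le_sum fun n _ => hLn n).trans ?_
      rw [sum_const, nsmul_eq_mul]
      refine mul_le_mul_of_nonneg_right ?_ (by positivity)
      have : F.card ≤ 4 * M + 1 := (card_filter_le _ _).trans (by rw [card_range])
      exact_mod_cast this
    have h2 : C / M * ∑ n ∈ F, LL n ^ 2 ≤ 5 * C * B ^ 2 * Q := by
      have hM0 : (0 : ℝ) < M := by linarith
      calc C / M * ∑ n ∈ F, LL n ^ 2 ≤ C / M * ((4 * M + 1) * (B ^ 2 * Q)) :=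
            mul_le_mul_of_nonneg_left h1 (by positivity)
        _ ≤ C / M * ((5 * M) * (B ^ 2 * Q)) := by
            refine mul_le_mul_of_nonneg_left ?_ (by positivity)
            exact mul_le_mul_of_nonneg_right (by linarith) (by positivity)
        _ = 5 * C * B ^ 2 * Q := by
            field_simp
    have h3 : (1 : ℝ) ≤ SS W M ^ Fintype.card ι := one_le_pow₀ hS1
    refine (h2.trans h5).trans ?_
    have h4 : 0 ≤ ε * (JJ ω * M / W) := by positivity
    calc ε * JJ ω / W * M = ε * (JJ ω * M / W) * 1 := by ring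
      _ ≤ ε * (JJ ω * M / W) * SS W M ^ Fintype.card ι := mul_le_mul_of_nonneg_left h3 h4
      _ = ε * (JJ ω * M / W * SS W M ^ Fintype.card ι) := by ring
  -- the lower bound
  set T := JJ ω * M / W * SS W M ^ Fintype.card ι with hT
  have hT0 : 0 < T := by
    have : 0 < SS W M := by linarith
    rw [hT]
    positivity
  have hlow : T * Real.log M * (∑ m : ι, (2499 / 10000) * OG N G m -
      Fintype.card ι * (2499 / 10000) * ε) ≤ ∑ m, ∑ n ∈ F, fM ω M (n + sh m) * LL n ^ 2 := by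
    have e1 : T * Real.log M * (∑ m : ι, (2499 / 10000) * OG N G m -
        Fintype.card ι * (2499 / 10000) * ε) =
        ∑ m : ι, JJ ω * M / W.totient * SS W M ^ (Fintype.card ι + 1) * (OG N G m - ε) := by
      have e2 : JJ ω * M / W.totient * SS W M ^ (Fintype.card ι + 1) =
          T * (2499 / 10000 * Real.log M) := by
        rw [hT, pow_succ]
        have e0 : JJ ω * M / W.totient * (SS W M ^ Fintype.card ι * SS W M) =
          JJ ω * M / W.totient * SS W M ^ Fintype.card ι *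
            ((W.totient : ℝ) / W * (2499 / 10000 * Real.log M)) := by
          rw [← my_SS W M hMpos]
          ring
        rw [e0]
        field_simp
      have e3 : ∑ m : ι, (OG N G m - ε) = ∑ m : ι, OG N G m - Fintype.card ι * ε := by
        rw [sum_sub_distrib, sum_const, card_univ, nsmul_eq_mul]
      have e4 : ∑ m : ι, T * (2499 / 10000 * Real.log M) * (OG N G m - ε) =
          T * (2499 / 10000 * Real.log M) * ∑ m : ι, (OG N G m - ε) :=
        (mul_sum _ _ _).symm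
      have e5 : ∑ m : ι, (2499 / 10000) * OG N G m = (2499 / 10000) * ∑ m : ι, OG N G m :=
        (mul_sum _ _ _).symm
      rw [e2, e4, e5, e3]
      ring
    rw [e1]
    refine sum_le_sum fun m _ => ?_
    have h1 := (abs_le.1 (hL m)).1
    have h2 : JJ ω * M / W.totient * SS W M ^ (Fintype.card ι + 1) * (OG N G m - ε) =
        -(ε * (JJ ω * M / W.totient * SS W M ^ (Fintype.card ι + 1))) +
          JJ ω * M / W.totient * SS W M ^ (Fintype.card ι + 1) * OG N G m := by ring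
    rw [h2]
    linarith
  have hSgt : (10002 / 10000 : ℝ) * ρ * IG N G < ∑ m : ι, (2499 / 10000) * OG N G m := by
    have hne : (univ : Finset ι).Nonempty := by
      rw [← card_pos, card_univ]
      exact hcard
    have h1 : ∑ m : ι, (10002 / 10000 : ℝ) * ρ * IG N G / Fintype.card ι <
        ∑ m : ι, (2499 / 10000) * OG N G m := by
      refine sum_lt_sum_of_nonempty hne fun m _ => ?_
      have := hO m
      rw [div_lt_iff₀ hk0]
      linarith
    rw [sum_const, card_univ, nsmul_eq_mul] at h1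
    have h2 : (Fintype.card ι : ℝ) * ((10002 / 10000 : ℝ) * ρ * IG N G / Fintype.card ι) =
        (10002 / 10000 : ℝ) * ρ * IG N G := by
      field_simp
    rwa [h2] at h1
  have hfin : T * Real.log M * (∑ m : ι, (2499 / 10000) * OG N G m -
      Fintype.card ι * (2499 / 10000) * ε) ≤
      ρ * Real.log (5 * M) * (T * (IG N G + ε) + C / M * ∑ n ∈ F, LL n ^ 2) := by
    refine (hlow.trans hsum).trans ?_
    refine mul_le_mul_of_nonneg_left ?_ (mul_nonneg (by linarith) hl50)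
    linarith
  exact my_contra T (Real.log M) (Real.log (5 * M)) (IG N G) ε _ _ (Fintype.card ι) ρ hT0 hl1 hI
    hk1 hρ1 hεd hl5 hl50 hSgt hR hfin

end Pool.Agent.Helper29.H2
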